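import Pool.Agent.P8H48.DC.Main

set_option autoImplicit false

open CategoryTheory AlgebraicGeometry MvPolynomial Pool.Agent.Y116.UV Pool.Agent.Z125.UN

namespace Pool.Agent.P8H48.DC

theorem pold (R : Type) [CommRing R] (sep : Prop) (P : Sch R → Prop) (hP : Bnd sep P) (A : Type) [CommRing A]
    [Algebra R A] [Algebra.FiniteType R A] (n : ℕ) (h : P (aff R (MvPolynomial (Fin n) A))) : P (aff R A) := by
  have h1 : IsOpenImmersion (𝟙 (aff R A) : aff R A ⟶ aff R A).left :=
    inferInstanceAs (IsOpenImmersion (𝟙 (aff R A).left))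
  have h2 : Set.range (𝟙 (aff R A) : aff R A ⟶ aff R A).left =
      {x : PrimeSpectrum A | ∃ l, f1 A n l ∉ x.asIdeal} := by
    have h1 : Set.range (𝟙 (aff R A) : aff R A ⟶ aff R A).left = Set.univ := Set.range_id
    have h2 : {x : PrimeSpectrum A | ∃ l, f1 A n l ∉ x.asIdeal} = Set.univ := by
      rw [Set.eq_univ_iff_forall]
      intro x
      exact ⟨0, fun h => x.isPrime.ne_top ((Ideal.eq_top_iff_one _).mpr h)⟩
    exact h1.trans h2.symm
  have : Algebra.FiniteType R (MvPolynomial (Fin n) A) :=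
    Algebra.FiniteType.trans (S := A) inferInstance inferInstance
  have h4 : P (aff R (Jou (f1 A n))) :=
    iso_alg hP.toUni ((jouOne A n).restrictScalars R).symm h
  exact hP.jouanolou A (n + 1) (f1 A n) (aff R A) (𝟙 _) h1 h2 h4

end Pool.Agent.P8H48.DC
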