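import Pool.Agent.P8H48.DC.Fin
import Pool.Agent.P8H48.DC.Pold
import Pool.Agent.P8H62.DC.Conv
import Pool.Agent.P8H62.DC.Reg
import Pool.Agent.P8H5.DC.Ksr
import Pool.Agent.P8H5.DC.Tor
import Pool.Agent.P8H20.DC.Ffc
import Pool.Agent.P8H48.DC.Opn
import Pool.Agent.P8H44.DC.Cls
import Pool.Agent.P8H44.DC.Smo

/-!
# Double covers: all packages
-/

set_option autoImplicit false

open CategoryTheory AlgebraicGeometry Pool.Agent.Y116.UV Pool.Agent.Z125.UN Pool.Agent.R904.TR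
open Pool.Agent.R904.CU Pool.Agent.P8H48.FR

namespace Pool.Agent.P8H48.DC

theorem pk : Pk where
  opn := Pool.Agent.P8H48.DC.Opn.opn
  cls := Pool.Agent.P8H44.DC.cls
  conv := Pool.Agent.P8H62.DC.conv
  reg := Pool.Agent.P8H62.DC.reg
  smo := Pool.Agent.P8H44.DC.smo
  tor := Pool.Agent.P8H5.DC.tor
  ksr := Pool.Agent.P8H5.DC.ksr
  pold := fun R _ sep P hP A _ _ _ m h => pold R sep P hP A m h

theorem all (K : KThy) :
    (∀ (R : Type) [CommRing R] [Algebra.FiniteType ℤ R], K.Fin (sp R) → ∀ S : Finset R, UnitDiff S →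
      1 < S.card → ∀ (A : Type) [CommRing A] [Algebra R A] [Algebra.FiniteType R A] (f : A), K.Fin (sp A) →
      (K.Fin (sp (A ⧸ Ideal.span {f})) ↔ K.Fin (sp (Cov S f)))) ∧
    List.TFAE [K.Bass, AllZ K, CovZO K ℤ {0, 1}, CovPoly K ℤ {0, 1}] ∧
    (∀ (p : ℕ) [Fact p.Prime] (S : Finset (ZMod p)), 1 < S.card →
      List.TFAE [BassP K p, AllP K p, CovZO K (ZMod p) S, CovPoly K (ZMod p) S]) ∧
    (∀ (k : Type) [Field k] [Finite k] (S : Finset k), 1 < S.card →
      (∀ d : ℕ, K.SmoothDim k d ↔ CovBlock K k S (d + 2)) ∧ CovBlock K k S 3) ∧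
    (∀ (R A : Type) [CommRing R] [CommRing A] [Algebra R A] (S : Finset R) (f : A), UnitDiff S →
      (Algebra.Smooth R A → Algebra.Smooth R (Cov S f)) ∧
      (IsRegularRing A → IsRegularScheme (sp (Cov S f))) ∧
      (S.Nonempty → Nontrivial A →
        letI := (Polynomial.aeval (R := A)
          (Ideal.Quotient.mk (Ideal.span {eqn S f}) (MvPolynomial.X 0))).toRingHom.toAlgebra
        Module.Finite (Polynomial A) (Cov S f) ∧ Module.Free (Polynomial A) (Cov S f) ∧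
          Module.finrank (Polynomial A) (Cov S f) = S.card)) ∧
    ∀ (k A : Type) [Field k] [Fintype k] [CommRing A] [Algebra k A] (f : A),
      eqn (Finset.univ : Finset k) f =
        MvPolynomial.X 1 ^ Fintype.card k - MvPolynomial.X 1 - MvPolynomial.X 0 * MvPolynomial.C f ∧
      FFE (Polynomial.aeval (R := A)
        (Ideal.Quotient.mk (Ideal.span {eqn (Finset.univ : Finset k) f}) (MvPolynomial.X 0))).toRingHom := by
  refine ⟨fun R _ _ h0 S hU h2 A _ _ _ f hA => fin_iff K pk R h0 S hU h2 A f hA, int_tfae K pk,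
    fun p _ S h2 => fp_tfae K pk p S h2, fun k _ _ S h2 => field_dim K pk k S h2,
    fun R A _ _ _ S f hU => ⟨fun h => pk.smo R A S f hU, fun h => pk.reg R A S f hU, fun hS hA => ?_⟩,
    fun k A _ _ _ _ f => Pool.Agent.P8H20.DC.ffc.2 k A f⟩
  obtain ⟨h1, h3, h4⟩ := Pool.Agent.P8H20.DC.ffc.1 R A S f hS
  exact ⟨h1, h3, h4 hA⟩

end Pool.Agent.P8H48.DC
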