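import Pool.Agent.P8H48.DC.Stm
import Pool.Agent.P8H48.FR.Stm

/-!
# Double covers: the covering map
-/

set_option autoImplicit false

namespace Pool.Agent.P8H48.DC

open MvPolynomial

/-- FFC. Over `A[t]` the ring of the cover is `A[t][z] / (∏_{c ∈ S} (z - c) - t f)`, the quotient by a monic polynomial of degree
`|S|`: finite and free of rank `|S|` (`AdjoinRoot`, or the isomorphism of `MvPolynomial (Fin 2) A` with
`A[t][z]`). If `R` is a finite field and `S = R`, the polynomial is `z ^ |R| - z - t f`, with the derivative `-1`, and the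
cover is etale. -/
def S_FFC : Prop :=
  (∀ (R A : Type) [CommRing R] [CommRing A] [Algebra R A] (S : Finset R) (f : A), S.Nonempty →
    letI := (Polynomial.aeval (R := A) (Ideal.Quotient.mk (Ideal.span {eqn S f}) (X 0))).toRingHom.toAlgebra
    Module.Finite (Polynomial A) (Cov S f) ∧ Module.Free (Polynomial A) (Cov S f) ∧
      (Nontrivial A → Module.finrank (Polynomial A) (Cov S f) = S.card)) ∧
  (∀ (k A : Type) [Field k] [Fintype k] [CommRing A] [Algebra k A] (f : A),
    eqn (Finset.univ : Finset k) f = X 1 ^ Fintype.card k - X 1 - X 0 * C f ∧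
    Pool.Agent.P8H48.FR.FFE
      (Polynomial.aeval (R := A) (Ideal.Quotient.mk (Ideal.span {eqn (Finset.univ : Finset k) f}) (X 0))).toRingHom)

end Pool.Agent.P8H48.DC
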