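import Pool.Agent.P8H48.DC.Main
import Pool.Agent.P8H48.DC.Stm2
import Pool.Agent.P8H48.FR.Main

/-!
# Bass's conjecture, double covers of affine spaces over `ℤ`, and Artin-Schreier covers over `F_p`
-/

set_option autoImplicit false

open CategoryTheory AlgebraicGeometry Pool.Agent.Y116.UV Pool.Agent.Z125.UN Pool.Agent.R904.TR
open Pool.Agent.R904.CU Pool.Agent.P8H48.FR

namespace Pool.Agent.P8H48.DC

open MvPolynomial

section defs

variable (K : KThy)

/-- The groups `K'_n` of the covers `∏_{c ∈ S} (z - c) = t T(x, y, w)` are finitely generated, for all trilinear forms `T` with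
coefficients `0` and `1`. -/
def CovZO (R : Type) [CommRing R] (S : Finset R) : Prop :=
  ∀ (a b c : ℕ) (T : Fin a → Fin b → Fin c → R), (∀ i j l, T i j l = 0 ∨ T i j l = 1) →
    K.Fin (sp (Cov S (tri T)))

/-- The same for all polynomials `f` in finitely many variables in the place of `T`. -/
def CovPoly (R : Type) [CommRing R] (S : Finset R) : Prop :=
  ∀ (σ : Type) [Finite σ] (f : MvPolynomial σ R), K.Fin (sp (Cov S f))

/-- The same for all trilinear forms `T` over `R` such that one of the three blocks of variables has at most `m`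
variables. -/
def CovBlock (R : Type) [CommRing R] (S : Finset R) (m : ℕ) : Prop :=
  ∀ (a b c : ℕ) (T : Fin a → Fin b → Fin c → R), (a ≤ m ∨ b ≤ m ∨ c ≤ m) → K.Fin (sp (Cov S (tri T)))

end defs

variable (K : KThy)

theorem fin_iff (H : Pk) (R : Type) [CommRing R] [Algebra.FiniteType ℤ R] (h0 : K.Fin (sp R)) (S : Finset R)
    (hU : UnitDiff S) (h2 : 1 < S.card) (A : Type) [CommRing A] [Algebra R A] [Algebra.FiniteType R A]
    (f : A) (hA : K.Fin (sp A)) : K.Fin (sp (A ⧸ Ideal.span {f})) ↔ K.Fin (sp (Cov S f)) :=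
  p_iff H (bnd K False h0) (H.ksr K R) S hU h2 f hA

theorem tri_iff (H : Pk) (R : Type) [CommRing R] [Algebra.FiniteType ℤ R] (h0 : K.Fin (sp R)) (S : Finset R)
    (hU : UnitDiff S) (h2 : 1 < S.card) {a b c : ℕ} (T : Fin a → Fin b → Fin c → R) :
    K.Fin (hypS T).left ↔ K.Fin (sp (Cov S (tri T))) :=
  p_tri H (bnd K False h0) (H.ksr K R) S hU h2 T

theorem unitDiff_int : UnitDiff ({0, 1} : Finset ℤ) := by
  intro a ha b hb hab
  simp only [Finset.mem_insert, Finset.mem_singleton] at ha hb
  rcases ha with rfl | rfl <;> rcases hb with rfl | rfl <;> simp_all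

theorem unitDiff_field (k : Type) [Field k] (S : Finset k) : UnitDiff S := fun _ _ _ _ h =>
  isUnit_iff_ne_zero.mpr (sub_ne_zero.mpr h)

theorem fin_int : K.Fin (sp ℤ) := fin_dim_one K ℤ dim_int

/-- the groups of the covers follow from Bass's conjecture -/
theorem of_bass (H : Pk) (R : Type) [CommRing R] [Algebra.FiniteType ℤ R] [IsRegularRing R]
    (h : ∀ (X : Scheme.{0}) (f : X ⟶ Spec (.of R)), FinType R X f → IsRegularScheme X → K.Fin X)
    (S : Finset R) (hU : UnitDiff S) : CovPoly K R S := by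
  intro σ _ f
  have hft : Algebra.FiniteType R (Cov S f) :=
    Algebra.FiniteType.trans (S := MvPolynomial σ R) inferInstance inferInstance
  exact h _ (aff R (Cov S f)).hom
    ⟨(ft_aff (R := R) (A := Cov S f) False).locallyOfFiniteType,
      (ft_aff (R := R) (A := Cov S f) False).quasiCompact⟩
    (H.reg R (MvPolynomial σ R) S f hU)

/-- all schemes of finite type from the covers -/
theorem all_of_cov (H : Pk) (R : Type) [CommRing R] [Algebra.FiniteType ℤ R]
    (hs : Function.Surjective (Int.cast : ℤ → R)) (h0 : K.Fin (sp R)) (S : Finset R) (hU : UnitDiff S)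
    (h2 : 1 < S.card) (h : CovZO K R S) (X : Scheme.{0}) (f : X ⟶ Spec (.of R)) (hf : FinType R X f) :
    K.Fin X := by
  have hN : IsNoetherianRing R := Algebra.FiniteType.isNoetherianRing ℤ R
  have hX : FT False (Over.mk f : Sch R) := ⟨hf.1, hf.2, fun h => h.elim⟩
  exact universal (R := R) (S := {0, 1}) (bnd K False h0).toUni (Or.inl rfl) (Or.inr rfl)
    (fun a b c T hT => (tri_iff K H R h0 S hU h2 T).mpr (h a b c T fun i j k => hT i j k))
    (presents_zero_one hs) (Over.mk f) hX

/-- all groups `K'_n(X)` are finitely generated, for all schemes `X` of finite type over `ℤ` -/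
def AllZ : Prop := ∀ (X : Scheme.{0}) (f : X ⟶ Spec (.of ℤ)), FinType ℤ X f → K.Fin X

/-- Bass's conjecture and double covers of affine spaces over `ℤ` -/
theorem int_tfae (H : Pk) : List.TFAE [K.Bass, AllZ K, CovZO K ℤ {0, 1}, CovPoly K ℤ {0, 1}] := by
  tfae_have 1 → 4 := fun h => of_bass K H ℤ h {0, 1} unitDiff_int
  tfae_have 4 → 3 := fun h a b c T _ => h _ (tri T)
  tfae_have 3 → 2 := fun h => all_of_cov K H ℤ (fun x => ⟨x, rfl⟩) (fin_int K) {0, 1} unitDiff_int
    (by decide) h
  tfae_have 2 → 1 := fun h X f hf _ => h X f hf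
  tfae_finish

/-- Bass's conjecture over `F_p` and Artin-Schreier covers of affine spaces -/
theorem fp_tfae (H : Pk) (p : ℕ) [Fact p.Prime] (S : Finset (ZMod p)) (h2 : 1 < S.card) :
    List.TFAE [BassP K p, AllP K p, CovZO K (ZMod p) S, CovPoly K (ZMod p) S] := by
  have hU := unitDiff_field (ZMod p) S
  tfae_have 1 → 4 := fun h => of_bass K H (ZMod p) h S hU
  tfae_have 4 → 3 := fun h a b c T _ => h _ (tri T)
  tfae_have 3 → 2 := fun h => all_of_cov K H (ZMod p) ZMod.intCast_surjective (fin_field K (ZMod p)) S hU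
    h2 h
  tfae_have 2 → 1 := fun h X f hf _ => h X f hf
  tfae_finish

/-- bounded dimension -/
theorem block_iff (H : Pk) (k : Type) [Field k] [Finite k] (S : Finset k) (h2 : 1 < S.card) (m : ℕ) :
    K.Block k m ↔ CovBlock K k S m := by
  constructor
  · intro h a b c T hm
    exact (tri_iff K H k (fin_field K k) S (unitDiff_field k S) h2 T).mp (h a b c T hm)
  · intro h a b c T hm
    exact (tri_iff K H k (fin_field K k) S (unitDiff_field k S) h2 T).mpr (h a b c T hm)

theorem field_dim (H : Pk) (k : Type) [Field k] [Finite k] (S : Finset k) (h2 : 1 < S.card) :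
    (∀ d : ℕ, K.SmoothDim k d ↔ CovBlock K k S (d + 2)) ∧ CovBlock K k S 3 :=
  ⟨fun d => (dim_iff K k d).1.trans (block_iff K H k S h2 (d + 2)),
    (block_iff K H k S h2 3).mp fun _ _ _ T h => three K k T h⟩

end Pool.Agent.P8H48.DC
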