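import Pool.Agent.P8H48.DC.Stm

/-!
# Double covers and Artin-Schreier covers of affine spaces: assembly
-/

set_option autoImplicit false

open CategoryTheory AlgebraicGeometry Pool.Agent.Y116.UV Pool.Agent.Z125.UN Pool.Agent.R904.TR
open Pool.Agent.R904.CU

namespace Pool.Agent.P8H48.DC

open MvPolynomial

/-- the packages together -/
structure Pk : Prop where
  opn : S_OPN
  cls : S_CLS
  conv : S_CONV
  reg : S_REG
  smo : S_SMO
  tor : S_TOR
  ksr : S_KSR
  pold : ∀ (R : Type) [CommRing R] (sep : Prop) (P : Sch R → Prop), Bnd sep P → ∀ (A : Type) [CommRing A]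
    [Algebra R A] [Algebra.FiniteType R A] (m : ℕ), P (aff R (MvPolynomial (Fin m) A)) → P (aff R A)

variable {R : Type} [CommRing R] {sep : Prop} {P : Sch R → Prop}

/-- open and closed parts -/
theorem p_summ (hB : Bnd sep P) (hS : SummR P) {B C : Type} [CommRing B] [CommRing C] [Algebra R B]
    [Algebra R C] [Algebra.FiniteType R B] (ψ : B →ₐ[R] C) (hψ : Function.Surjective ψ) (e : B)
    (he : IsIdempotentElem e) (hk : RingHom.ker ψ = Ideal.span {e}) (h : P (aff R B)) :
    P (aff R C) := by
  have h6 := hS B e he h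
  let E : (B ⧸ Ideal.span {e}) ≃ₐ[R] C :=
    (Ideal.quotientEquivAlgOfEq R hk.symm).trans (Ideal.quotientKerAlgEquivOfSurjective hψ)
  have hft : Algebra.FiniteType R (B ⧸ Ideal.span {e}) :=
    Algebra.FiniteType.trans (S := B) inferInstance inferInstance
  exact iso_alg hB.toUni E h6

/-- a closed subscheme whose complement is affine -/
theorem p_closed_of (hB : Bnd sep P) {B D : Type} [CommRing B] [CommRing D] [Algebra R B] [Algebra R D]
    [Algebra.FiniteType R B] (s : Set B) (φ : B →ₐ[R] D)
    (ho : IsOpenImmersion (Spec.map (CommRingCat.ofHom φ.toRingHom)))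
    (hr : Set.range (Spec.map (CommRingCat.ofHom φ.toRingHom)) = (PrimeSpectrum.zeroLocus s)ᶜ)
    (hP : P (aff R B)) (hD : P (aff R D)) : P (aff R (B ⧸ Ideal.span s)) := by
  let i : aff R (B ⧸ Ideal.span s) ⟶ aff R B :=
    Over.homMk (Spec.map (CommRingCat.ofHom (Ideal.Quotient.mk (Ideal.span s)))) (by
      change Spec.map _ ≫ Spec.map _ = Spec.map _
      rw [← Spec.map_comp]
      rfl)
  let j : aff R D ⟶ aff R B :=
    Over.homMk (Spec.map (CommRingCat.ofHom φ.toRingHom)) (by
      change Spec.map _ ≫ Spec.map _ = Spec.map _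
      rw [← Spec.map_comp, ← CommRingCat.ofHom_comp]
      congr 2
      exact φ.comp_algebraMap)
  have h3 : Set.range i.left = PrimeSpectrum.zeroLocus (Ideal.span s : Set B) := by
    have h4 := range_comap_of_surjective _ (Ideal.Quotient.mk (Ideal.span s))
      Ideal.Quotient.mk_surjective
    rw [Ideal.mk_ker] at h4
    exact h4
  have h5 : Set.range j.left = (PrimeSpectrum.zeroLocus s)ᶜ := hr
  have ht : IsTriple i j := by
    refine ⟨IsClosedImmersion.spec_of_surjective _ Ideal.Quotient.mk_surjective, ho, ?_⟩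
    rw [PrimeSpectrum.zeroLocus_span] at h3
    exact h3.trans ((compl_compl (PrimeSpectrum.zeroLocus s)).symm.trans (congrArg _ h5.symm))
  exact hB.closed i j (ft_aff sep) ht hP hD

/-- from the cover to the closed subscheme `f = 0` -/
theorem p_closed (H : Pk) (hB : Bnd sep P) (hS : SummR P) {A : Type} [CommRing A] [Algebra R A]
    [Algebra.FiniteType R A] (S : Finset R) (hU : UnitDiff S) (h2 : 1 < S.card) (f : A)
    (hA : P (aff R A)) (hC : P (aff R (Cov S f))) : P (aff R (A ⧸ Ideal.span {f})) := by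
  obtain ⟨a, ha, b, hb, hab⟩ := Finset.one_lt_card.mp h2
  obtain ⟨φ, ho, hr⟩ := H.opn R A S f a ha hU
  obtain ⟨ψ, hψ, e, he, hk⟩ := H.cls R A S f a b ha hb hab hU
  have hft : Algebra.FiniteType R (Cov S f) :=
    Algebra.FiniteType.trans (S := A) inferInstance inferInstance
  have hA1 : P (aff R (MvPolynomial (Fin 1) A)) := p_poly_fin hB 1 hA
  have hW := p_closed_of hB _ φ ho hr hC hA1
  have hftI : Algebra.FiniteType R (Cov S f ⧸ Ideal.span ({cf S f, ch S f a} : Set (Cov S f))) :=
    Algebra.FiniteType.trans (S := Cov S f) inferInstance inferInstance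
  have hftA : Algebra.FiniteType R (A ⧸ Ideal.span {f}) :=
    Algebra.FiniteType.trans (S := A) inferInstance inferInstance
  exact H.pold R sep P hB _ 1 (p_summ hB hS ψ hψ e he hk hW)

/-- the equivalence for one equation -/
theorem p_iff (H : Pk) (hB : Bnd sep P) (hS : SummR P) {A : Type} [CommRing A] [Algebra R A]
    [Algebra.FiniteType R A] (S : Finset R) (hU : UnitDiff S) (h2 : 1 < S.card) (f : A)
    (hA : P (aff R A)) : P (aff R (A ⧸ Ideal.span {f})) ↔ P (aff R (Cov S f)) :=
  ⟨H.conv R sep P hB A S f hU hA, p_closed H hB hS S hU h2 f hA⟩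

/-- trilinear forms -/
theorem p_tri (H : Pk) (hB : Bnd sep P) (hS : SummR P) (S : Finset R) (hU : UnitDiff S) (h2 : 1 < S.card)
    {a b c : ℕ} (T : Fin a → Fin b → Fin c → R) : P (hypS T) ↔ P (aff R (Cov S (tri T))) := by
  rw [← H.tor R sep P hB a b c T]
  exact p_iff H hB hS S hU h2 (tri T) (p_poly hB _ (iso_alg hB.toUni
    (MvPolynomial.isEmptyAlgEquiv R (Fin 0)) (hB.space 0)))

end Pool.Agent.P8H48.DC
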