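import Pool.Agent.R904.TR.Res
import Pool.Agent.Z125.UN.Dim2

/-!
# Double covers and Artin-Schreier covers of affine spaces: definitions and exact statements

Project DC (MP_e17fa799_al, Bass's conjecture). Let `R` be a ring, `S` a finite subset of `R` with at least two
elements whose differences are units, `A` an `R`-algebra, `f ∈ A`, and `X_f = Spec A[t, z] / (∏_{c ∈ S} (z - c) - t f)`.
(`S = {0, 1}`, `A = ℤ[y]`: the double cover `z ^ 2 - z = t f(y)` of the affine space; `S = R = F_p`: the etale
Artin-Schreier cover `z ^ p - z = t f(y)`.) For `a ∈ S` and `h = ∏_{b ≠ a} (z - b)` the open subscheme `X_f ∖ V(f, h)` is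
isomorphic to `Spec A[s]` by `z = a + s f`, `t = s h(a + s f)`, and `V(f, h)` is the disjoint union of `|S| - 1` copies of
`Spec (A / f)[t]`. So if the groups `K'_n` of `Spec A` are finitely generated, those of `X_f` are finitely generated iff
those of the closed subscheme `f = 0` are, although `X_f` is always smooth over `R` (if `A` is a polynomial ring).
Therefore Bass's conjecture over `ℤ` is equivalent to finite generation for the double covers
`z ^ 2 - z = t T(x, y, w)` of affine spaces over `ℤ`, `T` trilinear with coefficients `0` and `1`, and over `F_p` to the one for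
the `ℤ/p`-covers `z ^ p - z = t T(x, y, w)`.
-/

set_option autoImplicit false

open CategoryTheory AlgebraicGeometry Pool.Agent.Y116.UV Pool.Agent.Z125.UN Pool.Agent.R904.TR
open Pool.Agent.R904.CU

namespace Pool.Agent.P8H48.DC

open MvPolynomial

/-- The equation `∏_{c ∈ S} (z - c) - t f`; `t` is the variable `0` and `z` is the variable `1`. -/
noncomputable def eqn {R A : Type} [CommRing R] [CommRing A] [Algebra R A] (S : Finset R) (f : A) :
    MvPolynomial (Fin 2) A := ∏ c ∈ S, (X 1 - C (algebraMap R A c)) - X 0 * C f

/-- The ring `A[t, z] / (∏_{c ∈ S} (z - c) - t f)`. -/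
abbrev Cov {R A : Type} [CommRing R] [CommRing A] [Algebra R A] (S : Finset R) (f : A) : Type :=
  MvPolynomial (Fin 2) A ⧸ Ideal.span {eqn S f}

/-- The differences of the elements of `S` are units. -/
def UnitDiff {R : Type} [CommRing R] (S : Finset R) : Prop :=
  ∀ a ∈ S, ∀ b ∈ S, a ≠ b → IsUnit (a - b)

/-- `f` in the ring of the cover -/
noncomputable def cf {R A : Type} [CommRing R] [CommRing A] [Algebra R A] (S : Finset R) (f : A) :
    Cov S f := Ideal.Quotient.mk _ (C f)

open Classical in
/-- `∏_{b ∈ S, b ≠ a} (z - b)` in the ring of the cover -/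
noncomputable def ch {R A : Type} [CommRing R] [CommRing A] [Algebra R A] (S : Finset R) (f : A) (a : R) :
    Cov S f := Ideal.Quotient.mk _ (∏ b ∈ S.erase a, (X 1 - C (algebraMap R A b)))

/-- The property passes to open and closed subschemes of affine schemes. -/
def SummR {R : Type} [CommRing R] (P : Sch R → Prop) : Prop :=
  ∀ (B : Type) [CommRing B] [Algebra R B] [Algebra.FiniteType R B] (e : B), IsIdempotentElem e →
    P (aff R B) → P (aff R (B ⧸ Ideal.span {e}))

/-- OPN. The open subscheme `Spec A[s]`. Over `A`: `φ z = a + s f`, `φ t = s h(a + s f)`. It is a map of schemes which is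
an open immersion: `D(f)` and `D(h(a + s f))` cover `Spec A[s]` as `h(a + s f)` is the unit `h(a)` modulo `f`. On
`D(f)` the map is an isomorphism onto `D(f)`, since `Q_f = A_f[z]` (eliminate `t`) and `z = a + s f`; on `D(φ h)` it is
an isomorphism onto `D(h)`: `s = t / h` (and `z - a = t f / h`). (So `Q_f → A[s]_f` and `Q_h → A[s]_(φ h)` are
bijective; now use that open immersions can be checked on an open cover of the target, for the map to the open
subscheme `D(f) ∪ D(h)`, or a criterion as local isomorphism plus injective.) -/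
def S_OPN : Prop :=
  ∀ (R A : Type) [CommRing R] [CommRing A] [Algebra R A] (S : Finset R) (f : A) (a : R), a ∈ S → UnitDiff S →
    ∃ φ : Cov S f →ₐ[R] MvPolynomial (Fin 1) A,
      IsOpenImmersion (Spec.map (CommRingCat.ofHom φ.toRingHom)) ∧
      Set.range (Spec.map (CommRingCat.ofHom φ.toRingHom)) =
        (PrimeSpectrum.zeroLocus ({cf S f, ch S f a} : Set (Cov S f)))ᶜ

/-- CLS. The closed subscheme `V(f, h)` is `Spec (A / f)[t][z] / h(z)` (the equation is `0` there), and for `b ∈ S`,
`b ≠ a`, the part `z = b` is open and closed: `h = (z - b) h'` and `z - b`, `h'` generate the unit ideal. -/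
def S_CLS : Prop :=
  ∀ (R A : Type) [CommRing R] [CommRing A] [Algebra R A] (S : Finset R) (f : A) (a b : R), a ∈ S → b ∈ S →
    a ≠ b → UnitDiff S →
    ∃ ψ : (Cov S f ⧸ Ideal.span ({cf S f, ch S f a} : Set (Cov S f))) →ₐ[R]
        MvPolynomial (Fin 1) (A ⧸ Ideal.span {f}),
      Function.Surjective ψ ∧ ∃ e, IsIdempotentElem e ∧ RingHom.ker ψ = Ideal.span {e}

/-- CONV. If the property is true for `A` and `A / f` it is true for `X_f`: the open part `f ≠ 0` is `A_f[z]`
(`ring_open` for `A_f`, then `p_poly_fin`), the closed part `f = 0` is the disjoint union of the `|S|` lines `z = c` over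
`A / f`; use `ring_total`. (Induction on the number of factors `z - c`: the ring `B[z] / ((z - c) g)`, `B = (A / f)[t]`, has
the closed subscheme `z = c`, `Spec B`, with the open complement `B[z] / g`.) -/
def S_CONV : Prop :=
  ∀ (R : Type) [CommRing R] (sep : Prop) (P : Sch R → Prop), Bnd sep P → ∀ (A : Type) [CommRing A]
    [Algebra R A] [Algebra.FiniteType R A] (S : Finset R) (f : A), UnitDiff S →
    P (aff R A) → P (aff R (A ⧸ Ideal.span {f})) → P (aff R (Cov S f))

/-- REG. The cover is regular if `A` is: on `D(f)` it is `A_f[z]`, and where the derivative `g'(z)` of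
`g = ∏ (z - c)` is a unit it is standard etale over `A[t]` (`Pool.Agent.H920R2.regular_of_etale`); these two open sets cover
everything, since `g(z) = t f`, and `g`, `g'` generate the unit ideal of `R[z]`. -/
def S_REG : Prop :=
  ∀ (R A : Type) [CommRing R] [CommRing A] [Algebra R A] [IsRegularRing A] (S : Finset R) (f : A),
    UnitDiff S → IsRegularScheme (sp (Cov S f))

/-- SMO. The cover is smooth over `R` if `A` is (same proof). -/
def S_SMO : Prop :=
  ∀ (R A : Type) [CommRing R] [CommRing A] [Algebra R A] [Algebra.Smooth R A] (S : Finset R) (f : A),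
    UnitDiff S → Algebra.Smooth R (Cov S f)

/-- TOR. The open subscheme `T ≠ 0` of the affine space is the product of the hypersurface `T = 1` and the
multiplicative group, `(x, y, z) ↦ ((x / T, y, z), T)`; use `opened`, `closed`, `torus`, and `P A → P A[s, 1/s]`
(`p_poly`, `ring_open`). -/
def S_TOR : Prop :=
  ∀ (R : Type) [CommRing R] (sep : Prop) (P : Sch R → Prop), Bnd sep P → ∀ (a b c : ℕ)
    (T : Fin a → Fin b → Fin c → R),
    P (aff R (MvPolynomial (Fin a ⊕ (Fin b ⊕ Fin c)) R ⧸ Ideal.span {tri T})) ↔ P (hypS T)

/-- KSR. `K'` of an open and closed part, over any base. -/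
def S_KSR : Prop :=
  ∀ (K : KThy) (R : Type) [CommRing R] [Algebra.FiniteType ℤ R], SummR fun X : Sch R => K.Fin X.left

end Pool.Agent.P8H48.DC
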