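import Pool.Agent.P8H48.DC.All

/-!
# Smooth affine schemes which are the union of two affine spaces
-/

set_option autoImplicit false

open CategoryTheory AlgebraicGeometry MvPolynomial Pool.Agent.Y116.UV Pool.Agent.Z125.UN
open Pool.Agent.R904.TR Pool.Agent.R904.CU Pool.Agent.P8H48.FR Pool.Agent.P8H62.DC

namespace Pool.Agent.P8H48.DC

section defs

/-- The spectrum of `B` is the union of open subschemes `U_i`, `i ∈ ι`, each isomorphic over `R` to the spectrum
of `C`. -/
def UnionOf (R B C ι : Type) [CommRing R] [CommRing B] [CommRing C] [Algebra R B] [Algebra R C] : Prop :=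
  ∃ u : ι → (B →ₐ[R] C), (∀ i, IsOpenImmersion (Spec.map (CommRingCat.ofHom (u i).toRingHom))) ∧
    ∀ x : PrimeSpectrum B, ∃ i, ∃ y : PrimeSpectrum C, PrimeSpectrum.comap (u i).toRingHom y = x

/-- The groups `K'_n(X)` are finitely generated for all affine schemes `X` which are smooth over `R` and the union of two
open subschemes isomorphic over `R` to the affine space of dimension `N`, for all `N`. -/
def TwoSpaces (K : KThy) (R : Type) [CommRing R] : Prop :=
  ∀ (B : Type) [CommRing B] [Algebra R B] (N : ℕ), Algebra.Smooth R B →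
    UnionOf R B (MvPolynomial (Fin N) R) (Fin 2) → K.Fin (sp B)

/-- The ring of the cover is finite and free of rank `|S|` over `A[t]`. -/
def FreeCov {R A : Type} [CommRing R] [CommRing A] [Algebra R A] (S : Finset R) (f : A) : Prop :=
  letI := (Polynomial.aeval (R := A)
    (Ideal.Quotient.mk (Ideal.span {eqn S f}) (MvPolynomial.X 0))).toRingHom.toAlgebra
  Module.Finite (Polynomial A) (Cov S f) ∧ Module.Free (Polynomial A) (Cov S f) ∧
    Module.finrank (Polynomial A) (Cov S f) = S.card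

/-- The ring of the cover, `S = k` a finite field, is finite, free and etale over `A[t]`, and the equation is
`z ^ |k| - z - t f`. -/
def EtCov (k : Type) {A : Type} [Field k] [Fintype k] [CommRing A] [Algebra k A] (f : A) : Prop :=
  eqn (Finset.univ : Finset k) f =
    MvPolynomial.X 1 ^ Fintype.card k - MvPolynomial.X 1 - MvPolynomial.X 0 * MvPolynomial.C f ∧
  FFE (Polynomial.aeval (R := A)
    (Ideal.Quotient.mk (Ideal.span {eqn (Finset.univ : Finset k) f}) (MvPolynomial.X 0))).toRingHom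

end defs

lemma UnionOf.congr {R B C C' ι ι' : Type} [CommRing R] [CommRing B] [CommRing C] [CommRing C'] [Algebra R B]
    [Algebra R C] [Algebra R C'] (h : UnionOf R B C ι) (e : ι ≃ ι') (a : C ≃ₐ[R] C') :
    UnionOf R B C' ι' := by
  obtain ⟨u, h1, h2⟩ := h
  refine ⟨fun i => a.toAlgHom.comp (u (e.symm i)), fun i => ?_, fun x => ?_⟩
  · have h3 : Spec.map (CommRingCat.ofHom (a.toAlgHom.comp (u (e.symm i))).toRingHom) =
        Spec.map (CommRingCat.ofHom a.toRingEquiv.toRingHom) ≫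
          Spec.map (CommRingCat.ofHom (u (e.symm i)).toRingHom) := by
      rw [← Spec.map_comp, ← CommRingCat.ofHom_comp]
      rfl
    rw [h3]
    have h4 : IsIso (CommRingCat.ofHom a.toRingEquiv.toRingHom) :=
      (ConcreteCategory.isIso_iff_bijective _).mpr a.toRingEquiv.bijective
    have h5 := h1 (e.symm i)
    infer_instance
  · obtain ⟨i, y, hy⟩ := h2 x
    refine ⟨e i, PrimeSpectrum.comap a.symm.toRingEquiv.toRingHom y, ?_⟩
    rw [← hy, ← PrimeSpectrum.comap_comp_apply]
    congr 1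
    refine RingHom.ext fun b => ?_
    change a.symm (a (u (e.symm (e i)) b)) = u i b
    rw [AlgEquiv.symm_apply_apply, Equiv.symm_apply_apply]

/-- the cover is the union of `|S|` copies of the affine line over `A` -/
theorem union_cov (R A : Type) [CommRing R] [CommRing A] [Algebra R A] (S : Finset R) (f : A) (hU : UnitDiff S)
    (hS : S.Nonempty) : UnionOf R (Cov S f) (MvPolynomial (Fin 1) A) S := by
  classical
  choose φ h1 h2 using fun a : S => pk.opn R A S f a.1 a.2 hU
  refine ⟨φ, h1, fun x => ?_⟩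
  by_contra hne
  have key : ∀ a : S, cf S f ∈ x.asIdeal ∧ ch S f a.1 ∈ x.asIdeal := by
    intro a
    have h3 : x ∉ Set.range (Spec.map (CommRingCat.ofHom (φ a).toRingHom)) := by
      rintro ⟨y, hy⟩
      exact hne ⟨a, y, hy⟩
    rw [h2 a] at h3
    have h4 : x ∈ PrimeSpectrum.zeroLocus ({cf S f, ch S f a.1} : Set (Cov S f)) := by
      by_contra h5
      exact h3 h5
    rw [PrimeSpectrum.mem_zeroLocus] at h4
    exact ⟨h4 (Or.inl rfl), h4 (Or.inr rfl)⟩
  obtain ⟨a0, ha0⟩ := hS
  have hf := (key ⟨a0, ha0⟩).1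
  have h3 : ∏ c ∈ S, (cz S f - algebraMap A (Cov S f) (algebraMap R A c)) ∈ x.asIdeal := by
    rw [cov_rel]
    exact Ideal.mul_mem_left _ _ hf
  rw [x.isPrime.prod_mem_iff] at h3
  obtain ⟨a, ha, ha2⟩ := h3
  have h4 := (key ⟨a, ha⟩).2
  change ch S f a ∈ x.asIdeal at h4
  rw [Pool.Agent.P8H62.DC.ch_eq, x.isPrime.prod_mem_iff] at h4
  obtain ⟨b, hb, hb2⟩ := h4
  rw [Finset.mem_erase] at hb
  have h5 := x.asIdeal.sub_mem hb2 ha2
  have h6 : cz S f - algebraMap A (Cov S f) (algebraMap R A b) -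
      (cz S f - algebraMap A (Cov S f) (algebraMap R A a)) =
      algebraMap A (Cov S f) (algebraMap R A (a - b)) := by
    rw [map_sub, map_sub]
    ring
  rw [h6] at h5
  have hu : IsUnit (algebraMap A (Cov S f) (algebraMap R A (a - b))) :=
    ((hU a ha b hb.2 (Ne.symm hb.1)).map (algebraMap R A)).map (algebraMap A (Cov S f))
  exact x.isPrime.ne_top (Ideal.eq_top_of_isUnit_mem _ h5 hu)

/-- the double cover of an affine space is the union of two affine spaces -/
theorem two_cov (R : Type) [CommRing R] (σ : Type) [Finite σ] (f : MvPolynomial σ R) (S : Finset R)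
    (hU : UnitDiff S) (h2 : S.card = 2) :
    ∃ N : ℕ, UnionOf R (Cov S f) (MvPolynomial (Fin N) R) (Fin 2) := by
  have : Fintype σ := Fintype.ofFinite σ
  have hS : S.Nonempty := Finset.card_pos.mp (by omega)
  refine ⟨Fintype.card (Fin 1 ⊕ σ), (union_cov R (MvPolynomial σ R) S f hU hS).congr
    (S.equivFinOfCardEq h2) ?_⟩
  exact (MvPolynomial.sumAlgEquiv R (Fin 1) σ).symm.trans
    (MvPolynomial.renameEquiv R (Fintype.equivFin (Fin 1 ⊕ σ)))

/-- a union of affine spaces is regular -/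
theorem reg_union (R B C ι : Type) [CommRing R] [CommRing B] [CommRing C] [Algebra R B] [Algebra R C]
    [IsRegularRing C] (h : UnionOf R B C ι) : IsRegularScheme (sp B) := by
  obtain ⟨u, h1, h2⟩ := h
  refine isRegularScheme_of_cover fun x => ?_
  obtain ⟨i, y, hy⟩ := h2 x
  exact ⟨Spec (.of C), _, h1 i, ⟨y, hy⟩, isRegularScheme_spec _⟩

theorem two_of_bass (K : KThy) (R : Type) [CommRing R] [Algebra.FiniteType ℤ R] [IsRegularRing R]
    (h : ∀ (X : Scheme.{0}) (f : X ⟶ Spec (.of R)), FinType R X f → IsRegularScheme X → K.Fin X) :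
    TwoSpaces K R := by
  intro B _ _ N hsm hB
  have hft : Algebra.FiniteType R B := inferInstance
  exact h _ (aff R B).hom
    ⟨(ft_aff (R := R) (A := B) False).locallyOfFiniteType,
      (ft_aff (R := R) (A := B) False).quasiCompact⟩
    (reg_union R B (MvPolynomial (Fin N) R) (Fin 2) hB)

theorem cov_of_two (K : KThy) (R : Type) [CommRing R] (h : TwoSpaces K R) (S : Finset R) (hU : UnitDiff S)
    (h2 : S.card = 2) : CovZO K R S := by
  intro a b c T _
  obtain ⟨N, hN⟩ := two_cov R (Fin a ⊕ (Fin b ⊕ Fin c)) (tri T) S hU h2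
  have hsm : Algebra.Smooth R (MvPolynomial (Fin a ⊕ (Fin b ⊕ Fin c)) R) := ⟨inferInstance, inferInstance⟩
  exact h _ N (pk.smo R _ S (tri T) hU) hN

theorem int5 (K : KThy) :
    List.TFAE [K.Bass, AllZ K, CovZO K ℤ {0, 1}, CovPoly K ℤ {0, 1}, TwoSpaces K ℤ] := by
  have h0 := int_tfae K pk
  tfae_have 1 ↔ 2 := h0.out 0 1
  tfae_have 1 ↔ 3 := h0.out 0 2
  tfae_have 1 ↔ 4 := h0.out 0 3
  tfae_have 1 → 5 := fun h => two_of_bass K ℤ h
  tfae_have 5 → 3 := fun h => cov_of_two K ℤ h {0, 1} unitDiff_int (by decide)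
  tfae_finish

theorem fp5 (K : KThy) (p : ℕ) [Fact p.Prime] (S : Finset (ZMod p)) (h2 : 1 < S.card) :
    List.TFAE [BassP K p, AllP K p, CovZO K (ZMod p) S, CovPoly K (ZMod p) S, TwoSpaces K (ZMod p)] := by
  have h0 := fp_tfae K pk p S h2
  tfae_have 1 ↔ 2 := h0.out 0 1
  tfae_have 1 ↔ 3 := h0.out 0 2
  tfae_have 1 ↔ 4 := h0.out 0 3
  tfae_have 1 → 5 := fun h => two_of_bass K (ZMod p) h
  tfae_have 5 → 1 := by
    intro h
    have hc : ({0, 1} : Finset (ZMod p)).card = 2 := Finset.card_pair zero_ne_one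
    exact ((fp_tfae K pk p {0, 1} (by omega)).out 0 2).mpr
      (cov_of_two K (ZMod p) h {0, 1} (unitDiff_field _ _) hc)
  tfae_finish

theorem all2 (K : KThy) :
    (∀ (R : Type) [CommRing R] [Algebra.FiniteType ℤ R] (S : Finset R), K.Fin (sp R) → UnitDiff S →
      1 < S.card → ∀ (A : Type) [CommRing A] [Algebra R A] [Algebra.FiniteType R A] (f : A), K.Fin (sp A) →
      (K.Fin (sp (A ⧸ Ideal.span {f})) ↔ K.Fin (sp (Cov S f)))) ∧
    List.TFAE [K.Bass, AllZ K, CovZO K ℤ {0, 1}, CovPoly K ℤ {0, 1}, TwoSpaces K ℤ] ∧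
    (∀ (p : ℕ) [Fact p.Prime] (S : Finset (ZMod p)), 1 < S.card →
      List.TFAE [BassP K p, AllP K p, CovZO K (ZMod p) S, CovPoly K (ZMod p) S, TwoSpaces K (ZMod p)]) ∧
    (∀ (k : Type) [Field k] [Finite k] (S : Finset k), 1 < S.card →
      (∀ d : ℕ, K.SmoothDim k d ↔ CovBlock K k S (d + 2)) ∧ CovBlock K k S 3) ∧
    (∀ (R A : Type) [CommRing R] [CommRing A] [Algebra R A] (S : Finset R) (f : A), UnitDiff S → S.Nonempty →
      (Algebra.Smooth R A → Algebra.Smooth R (Cov S f)) ∧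
      (IsRegularRing A → IsRegularScheme (sp (Cov S f))) ∧
      (Nontrivial A → FreeCov S f) ∧ UnionOf R (Cov S f) (MvPolynomial (Fin 1) A) S) ∧
    ∀ (k A : Type) [Field k] [Fintype k] [CommRing A] [Algebra k A] (f : A), EtCov k f := by
  have h := all K
  refine ⟨fun R _ _ S h0 hU h2 A _ _ _ f hA => h.1 R h0 S hU h2 A f hA, int5 K, fun p _ S h2 => fp5 K p S h2,
    h.2.2.2.1, fun R A _ _ _ S f hU hS => ?_, h.2.2.2.2.2⟩
  obtain ⟨h1, h3, h4⟩ := h.2.2.2.2.1 R A S f hU
  exact ⟨h1, h3, h4 hS, union_cov R A S f hU hS⟩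

end Pool.Agent.P8H48.DC
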